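import Mathlib

set_option autoImplicit false

namespace Pool.Agent.NumHyp

/-- `T` is numerically hypercyclic: there is a pair `(x, f)` with `‖x‖ = ‖f‖ = f x = 1` such that
the numbers `f (T ^ n x)`, `n = 0, 1, 2, ...`, are dense in the complex plane. -/
def NumericallyHypercyclic {X : Type*} [NormedAddCommGroup X] [NormedSpace ℂ X]
    (T : X →L[ℂ] X) : Prop :=
  ∃ (x : X) (f : StrongDual ℂ X), ‖x‖ = 1 ∧ ‖f‖ = 1 ∧ f x = 1 ∧
    Dense (Set.range fun n : ℕ => f ((T ^ n) x))

/-- `T` and `S` are similar: `J⁻¹ S J = T` for some linear homeomorphism `J`. -/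
def Similar {X Y : Type*} [NormedAddCommGroup X] [NormedSpace ℂ X]
    [NormedAddCommGroup Y] [NormedSpace ℂ Y] (T : X →L[ℂ] X) (S : Y →L[ℂ] Y) : Prop :=
  ∃ J : X ≃L[ℂ] Y, ∀ x : X, J.symm (S (J x)) = T x

/-- `T` is strongly numerically hypercyclic: every operator (on a complex Banach space) similar
to `T` is numerically hypercyclic. -/
def StronglyNumericallyHypercyclic.{u} {X : Type u} [NormedAddCommGroup X] [NormedSpace ℂ X]
    (T : X →L[ℂ] X) : Prop :=
  ∀ (Y : Type u) [NormedAddCommGroup Y] [NormedSpace ℂ Y] [CompleteSpace Y] (S : Y →L[ℂ] Y),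
    Similar T S → NumericallyHypercyclic S

/-- Two complex numbers are (multiplicatively) independent. -/
def Independent (z w : ℂ) : Prop :=
  ∀ m n : ℤ, z ^ m * w ^ n = 1 → m = 0 ∧ n = 0

end Pool.Agent.NumHyp
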