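import Mathlib

set_option autoImplicit false

namespace Pool.Agent.NumHyp

open Filter Topology Finset

/-- Cesàro means of the powers of a unit complex number different from one tend to zero. -/
theorem cesaro_zero (w : ℂ) (hw : ‖w‖ = 1) (hw1 : w ≠ 1) :
    Tendsto (fun M : ℕ => (∑ n ∈ range M, w ^ n) / (M : ℂ)) atTop (𝓝 0) := by
  have h1 : w - 1 ≠ 0 := sub_ne_zero.mpr hw1
  have hb : ∀ M : ℕ, ‖(∑ n ∈ range M, w ^ n) / (M : ℂ)‖ ≤ (2 / ‖w - 1‖) / (M : ℝ) := by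
    intro M
    rw [norm_div, geom_sum_eq hw1, norm_div]
    have : ‖w ^ M - 1‖ ≤ 2 := by
      calc ‖w ^ M - 1‖ ≤ ‖w ^ M‖ + ‖(1 : ℂ)‖ := norm_sub_le _ _
        _ = 2 := by rw [norm_pow, hw]; norm_num
    rw [Complex.norm_natCast]
    gcongr
  apply squeeze_zero_norm hb
  exact tendsto_const_div_atTop_nhds_zero_nat _

theorem cesaro_one :
    Tendsto (fun M : ℕ => (∑ n ∈ range M, (1 : ℂ) ^ n) / (M : ℂ)) atTop (𝓝 1) := by
  apply tendsto_const_nhds.congr'
  filter_upwards [eventually_gt_atTop 0] with M hM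
  have : (M : ℂ) ≠ 0 := by exact_mod_cast hM.ne'
  simp [this]

/-- mean square of an exponential sum -/
theorem mean_square {ι : Type*} (s : Finset ι) (c w : ι → ℂ)
    (hw : ∀ i ∈ s, ‖w i‖ = 1) (hinj : ∀ i ∈ s, ∀ j ∈ s, w i = w j → i = j) :
    Tendsto (fun M : ℕ => (∑ n ∈ range M, ((‖∑ i ∈ s, c i * w i ^ n‖ ^ 2 : ℝ) : ℂ)) / (M : ℂ))
      atTop (𝓝 (∑ i ∈ s, ((‖c i‖ ^ 2 : ℝ) : ℂ))) := by
  have key : ∀ M : ℕ, (∑ n ∈ range M, ((‖∑ i ∈ s, c i * w i ^ n‖ ^ 2 : ℝ) : ℂ)) / (M : ℂ) =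
      ∑ i ∈ s, ∑ j ∈ s, (c i * (starRingEnd ℂ) (c j)) *
        ((∑ n ∈ range M, (w i * (starRingEnd ℂ) (w j)) ^ n) / (M : ℂ)) := by
    intro M
    have h1 : ∀ n ∈ range M, ((‖∑ i ∈ s, c i * w i ^ n‖ ^ 2 : ℝ) : ℂ) =
        ∑ i ∈ s, ∑ j ∈ s, (c i * (starRingEnd ℂ) (c j)) *
          (w i * (starRingEnd ℂ) (w j)) ^ n := by
      intro n _
      push_cast
      rw [← Complex.mul_conj', map_sum, Finset.sum_mul_sum]
      apply Finset.sum_congr rfl
      intro i _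
      apply Finset.sum_congr rfl
      intro j _
      rw [map_mul, map_pow, mul_pow]
      ring
    rw [Finset.sum_congr rfl h1, Finset.sum_comm, Finset.sum_div]
    apply Finset.sum_congr rfl
    intro i _
    rw [Finset.sum_comm, Finset.sum_div]
    apply Finset.sum_congr rfl
    intro j _
    rw [← Finset.mul_sum, mul_div_assoc]
  simp_rw [key]
  apply tendsto_finsetSum
  intro i hi
  classical
  have hlim : ((‖c i‖ ^ 2 : ℝ) : ℂ) = ∑ j ∈ s, (c i * (starRingEnd ℂ) (c j)) *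
      (if j = i then 1 else 0) := by
    simp only [mul_ite, mul_one, mul_zero]
    rw [Finset.sum_ite_eq' s i, if_pos hi, Complex.mul_conj']
    push_cast; rfl
  rw [hlim]
  apply tendsto_finsetSum
  intro j hj
  apply Tendsto.const_mul
  by_cases hij : j = i
  · subst hij
    rw [if_pos rfl]
    have : w j * (starRingEnd ℂ) (w j) = 1 := by
      rw [Complex.mul_conj', hw j hj]; norm_num
    rw [this]
    exact cesaro_one
  · rw [if_neg hij]
    apply cesaro_zero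
    · rw [norm_mul, RCLike.norm_conj, hw i hi, hw j hj]; norm_num
    · intro h
      apply hij
      apply hinj j hj i hi
      have h2 : w j * (starRingEnd ℂ) (w j) = 1 := by
        rw [Complex.mul_conj', hw j hj]; norm_num
      have h3 : (starRingEnd ℂ) (w j) ≠ 0 := by
        intro h0
        rw [h0, mul_zero] at h2
        exact zero_ne_one h2
      have h4 : w i * (starRingEnd ℂ) (w j) = w j * (starRingEnd ℂ) (w j) := by rw [h, h2]
      exact (mul_right_cancel₀ h3 h4).symm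

/-- If an exponential sum is eventually bounded then so is the square sum of its coefficients. -/
theorem sum_sq_le_of_bound {ι : Type*} (s : Finset ι) (c w : ι → ℂ)
    (hw : ∀ i ∈ s, ‖w i‖ = 1) (hinj : ∀ i ∈ s, ∀ j ∈ s, w i = w j → i = j)
    (N : ℕ) (B : ℝ) (hB : ∀ n ≥ N, ‖∑ i ∈ s, c i * w i ^ n‖ ^ 2 ≤ B) :
    ∑ i ∈ s, ‖c i‖ ^ 2 ≤ B := by
  have h1 := mean_square s c w hw hinj
  have h2 : Tendsto (fun M : ℕ => (∑ n ∈ range M, ‖∑ i ∈ s, c i * w i ^ n‖ ^ 2) / (M : ℝ))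
      atTop (𝓝 (∑ i ∈ s, ‖c i‖ ^ 2)) := by
    have := (Complex.continuous_re.tendsto _).comp h1
    convert this using 1
    · funext M
      simp only [Function.comp_apply]
      have : (∑ n ∈ range M, ((‖∑ i ∈ s, c i * w i ^ n‖ ^ 2 : ℝ) : ℂ)) / (M : ℂ) =
          (((∑ n ∈ range M, ‖∑ i ∈ s, c i * w i ^ n‖ ^ 2) / (M : ℝ) : ℝ) : ℂ) := by
        push_cast; rfl
      rw [this, Complex.ofReal_re]
    · rw [← Complex.ofReal_sum, Complex.ofReal_re]
  set C : ℝ := ∑ n ∈ range N, ‖∑ i ∈ s, c i * w i ^ n‖ ^ 2 with hC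
  have h3 : ∀ M : ℕ, N ≤ M → 0 < M →
      (∑ n ∈ range M, ‖∑ i ∈ s, c i * w i ^ n‖ ^ 2) / (M : ℝ) ≤ B + C / (M : ℝ) := by
    intro M hM hM0
    have hM' : (0 : ℝ) < M := by exact_mod_cast hM0
    have hBnn : 0 ≤ B := le_trans (by positivity) (hB N le_rfl)
    have h4 : ∑ n ∈ range M, ‖∑ i ∈ s, c i * w i ^ n‖ ^ 2 ≤ C + M * B := by
      rw [← Finset.sum_range_add_sum_Ico _ hM]
      have h5 : ∑ n ∈ Ico N M, ‖∑ i ∈ s, c i * w i ^ n‖ ^ 2 ≤ ∑ n ∈ Ico N M, B := by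
        apply Finset.sum_le_sum
        intro n hn
        exact hB n (Finset.mem_Ico.mp hn).1
      rw [Finset.sum_const, nsmul_eq_mul, Nat.card_Ico] at h5
      have h6 : ((M - N : ℕ) : ℝ) * B ≤ M * B := by
        apply mul_le_mul_of_nonneg_right _ hBnn
        exact_mod_cast Nat.sub_le M N
      linarith
    rw [div_le_iff₀ hM']
    have : (B + C / M) * M = B * M + C := by field_simp
    rw [this]
    linarith
  have h4 : Tendsto (fun M : ℕ => B + C / (M : ℝ)) atTop (𝓝 (B + 0)) :=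
    tendsto_const_nhds.add (tendsto_const_div_atTop_nhds_zero_nat C)
  rw [add_zero] at h4
  apply le_of_tendsto_of_tendsto h2 h4
  filter_upwards [eventually_ge_atTop N, eventually_gt_atTop 0] with M hM hM0
  exact h3 M hM hM0

/-- Kronecker's theorem for two independent unit complex numbers. -/
theorem kronecker (z₁ z₂ : ℂ) (h₁ : ‖z₁‖ = 1) (h₂ : ‖z₂‖ = 1)
    (hind : ∀ m₁ m₂ : ℤ, z₁ ^ m₁ * z₂ ^ m₂ = 1 → m₁ = 0 ∧ m₂ = 0)
    (a b : ℂ) (ha : ‖a‖ = 1) (hb : ‖b‖ = 1) (ε : ℝ) (hε : 0 < ε) (N : ℕ) :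
    ∃ n ≥ N, ‖z₁ ^ n - a‖ < ε ∧ ‖z₂ ^ n - b‖ < ε := by
  by_contra hcon
  push Not at hcon
  have hz₁ : z₁ ≠ 0 := by intro h; rw [h] at h₁; simp at h₁
  have hz₂ : z₂ ≠ 0 := by intro h; rw [h] at h₂; simp at h₂
  -- parallelogram identity
  have hpar : ∀ z a : ℂ, ‖z‖ = 1 → ‖a‖ = 1 → ‖z + a‖ ^ 2 = 4 - ‖z - a‖ ^ 2 := by
    intro z a hz ha
    have := parallelogram_law_with_norm ℝ z a
    rw [hz, ha] at this
    nlinarith
  have hle2 : ∀ z a : ℂ, ‖z‖ = 1 → ‖a‖ = 1 → ‖z + a‖ ^ 2 ≤ 4 := by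
    intro z a hz ha
    rw [hpar z a hz ha]
    nlinarith [sq_nonneg ‖z - a‖]
  -- without loss of generality `ε ≤ 1`
  set η : ℝ := min ε 1 with hη
  have hη0 : 0 < η := lt_min hε one_pos
  have hη1 : η ≤ 1 := min_le_right _ _
  have hηε : η ≤ ε := min_le_left _ _
  -- main bound for every `m`
  have main : ∀ m : ℕ, (1 : ℝ) ≤ ((m : ℝ) + 1) ^ 2 * (1 - η ^ 2 / 4) ^ m := by
    intro m
    set s : Finset (ℕ × ℕ) := range (m + 1) ×ˢ range (m + 1) with hs
    set c : ℕ × ℕ → ℂ := fun p => (a ^ (m - p.1) * (m.choose p.1 : ℂ)) *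
      (b ^ (m - p.2) * (m.choose p.2 : ℂ)) with hc
    set w : ℕ × ℕ → ℂ := fun p => z₁ ^ p.1 * z₂ ^ p.2 with hw
    have hsum : ∀ n : ℕ, ∑ p ∈ s, c p * w p ^ n = (z₁ ^ n + a) ^ m * (z₂ ^ n + b) ^ m := by
      intro n
      rw [add_pow, add_pow, Finset.sum_mul_sum, ← Finset.sum_product']
      apply Finset.sum_congr rfl
      intro p _
      simp only [hc, hw]
      rw [mul_pow, ← pow_mul, ← pow_mul, ← pow_mul, ← pow_mul, mul_comm p.1 n, mul_comm p.2 n]
      ring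
    have hwn : ∀ p ∈ s, ‖w p‖ = 1 := by
      intro p _
      simp [hw, h₁, h₂]
    have hinj : ∀ p ∈ s, ∀ q ∈ s, w p = w q → p = q := by
      intro p _ q _ hpq
      simp only [hw] at hpq
      have h3 : z₁ ^ ((p.1 : ℤ) - q.1) * z₂ ^ ((p.2 : ℤ) - q.2) = 1 := by
        rw [zpow_sub₀ hz₁, zpow_sub₀ hz₂, zpow_natCast, zpow_natCast, zpow_natCast, zpow_natCast]
        have e1 : z₁ ^ q.1 ≠ 0 := pow_ne_zero _ hz₁
        have e2 : z₂ ^ q.2 ≠ 0 := pow_ne_zero _ hz₂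
        field_simp
        exact hpq
      obtain ⟨h4, h5⟩ := hind _ _ h3
      apply Prod.ext
      · omega
      · omega
    have hbd : ∀ n ≥ N, ‖∑ p ∈ s, c p * w p ^ n‖ ^ 2 ≤ 4 ^ m * (4 - η ^ 2) ^ m := by
      intro n hn
      rw [hsum n, norm_mul, norm_pow, norm_pow, mul_pow, ← pow_mul, ← pow_mul, mul_comm m 2,
        pow_mul, pow_mul]
      have hn1 : ‖z₁ ^ n‖ = 1 := by rw [norm_pow, h₁, one_pow]
      have hn2 : ‖z₂ ^ n‖ = 1 := by rw [norm_pow, h₂, one_pow]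
      by_cases hcase : ‖z₁ ^ n - a‖ < ε
      · have h6 := hcon n hn hcase
        have h7 : ‖z₂ ^ n + b‖ ^ 2 ≤ 4 - η ^ 2 := by
          rw [hpar _ _ hn2 hb]
          have : η ^ 2 ≤ ‖z₂ ^ n - b‖ ^ 2 := by
            apply pow_le_pow_left₀ hη0.le
            linarith
          linarith
        apply mul_le_mul
        · exact pow_le_pow_left₀ (by positivity) (hle2 _ _ hn1 ha) m
        · exact pow_le_pow_left₀ (by positivity) h7 m
        · positivity
        · positivity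
      · push Not at hcase
        have h7 : ‖z₁ ^ n + a‖ ^ 2 ≤ 4 - η ^ 2 := by
          rw [hpar _ _ hn1 ha]
          have : η ^ 2 ≤ ‖z₁ ^ n - a‖ ^ 2 := by
            apply pow_le_pow_left₀ hη0.le
            linarith
          linarith
        rw [mul_comm (4 ^ m : ℝ)]
        apply mul_le_mul
        · exact pow_le_pow_left₀ (by positivity) h7 m
        · exact pow_le_pow_left₀ (by positivity) (hle2 _ _ hn2 hb) m
        · positivity
        · have : 0 ≤ 4 - η ^ 2 := by nlinarith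
          positivity
    have hres := sum_sq_le_of_bound s c w hwn hinj N _ hbd
    -- lower bound of the coefficient sum
    have hcn : ∀ p ∈ s, ‖c p‖ ^ 2 = (m.choose p.1 : ℝ) ^ 2 * (m.choose p.2 : ℝ) ^ 2 := by
      intro p _
      simp only [hc]
      rw [norm_mul, norm_mul, norm_mul, norm_pow, norm_pow, ha, hb, Complex.norm_natCast,
        Complex.norm_natCast]
      ring
    have hprod : ∑ p ∈ s, ‖c p‖ ^ 2 =
        (∑ j ∈ range (m + 1), (m.choose j : ℝ) ^ 2) * (∑ j ∈ range (m + 1), (m.choose j : ℝ) ^ 2) := by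
      rw [Finset.sum_congr rfl hcn, hs, Finset.sum_mul_sum, ← Finset.sum_product']
    have hCS : (4 : ℝ) ^ m ≤ ((m : ℝ) + 1) * ∑ j ∈ range (m + 1), (m.choose j : ℝ) ^ 2 := by
      have h8 := sq_sum_le_card_mul_sum_sq (s := range (m + 1)) (f := fun j => (m.choose j : ℝ))
      have h9 : ∑ j ∈ range (m + 1), (m.choose j : ℝ) = 2 ^ m := by
        exact_mod_cast Nat.sum_range_choose m
      rw [h9, Finset.card_range] at h8
      have h10 : ((2 : ℝ) ^ m) ^ 2 = 4 ^ m := by rw [← pow_mul, mul_comm, pow_mul]; norm_num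
      rw [h10] at h8
      push_cast at h8
      exact h8
    have hS : 0 ≤ ∑ j ∈ range (m + 1), (m.choose j : ℝ) ^ 2 := by positivity
    have h11 : (4 : ℝ) ^ m * 4 ^ m ≤ (((m : ℝ) + 1) * ∑ j ∈ range (m + 1), (m.choose j : ℝ) ^ 2) *
        (((m : ℝ) + 1) * ∑ j ∈ range (m + 1), (m.choose j : ℝ) ^ 2) :=
      mul_le_mul hCS hCS (by positivity) (by positivity)
    rw [hprod] at hres
    have h12 : (4 - η ^ 2) ^ m = 4 ^ m * (1 - η ^ 2 / 4) ^ m := by
      rw [← mul_pow]; congr 1; ring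
    rw [h12] at hres
    have h13 : (0 : ℝ) < 4 ^ m * 4 ^ m := by positivity
    have h14 : (4 : ℝ) ^ m * 4 ^ m ≤ ((m : ℝ) + 1) ^ 2 * (4 ^ m * (4 ^ m * (1 - η ^ 2 / 4) ^ m)) := by
      calc _ ≤ _ := h11
        _ = ((m : ℝ) + 1) ^ 2 * ((∑ j ∈ range (m + 1), (m.choose j : ℝ) ^ 2) *
            (∑ j ∈ range (m + 1), (m.choose j : ℝ) ^ 2)) := by ring
        _ ≤ _ := by
          apply mul_le_mul_of_nonneg_left hres
          positivity
    have h15 : (4 : ℝ) ^ m * 4 ^ m * 1 ≤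
        (4 : ℝ) ^ m * 4 ^ m * (((m : ℝ) + 1) ^ 2 * (1 - η ^ 2 / 4) ^ m) := by
      calc _ = (4 : ℝ) ^ m * 4 ^ m := by ring
        _ ≤ _ := h14
        _ = _ := by ring
    exact le_of_mul_le_mul_left h15 h13
  -- contradiction as `m → ∞`
  set r : ℝ := 1 - η ^ 2 / 4 with hr
  have hr0 : 0 < r := by rw [hr]; nlinarith
  have hr1 : r < 1 := by rw [hr]; nlinarith [pow_pos hη0 2]
  have hlim : Tendsto (fun m : ℕ => ((m : ℝ) + 1) ^ 2 * r ^ m) atTop (𝓝 0) := by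
    have h1 := tendsto_pow_const_mul_const_pow_of_abs_lt_one 2 (r := r)
      (by rw [abs_of_pos hr0]; exact hr1)
    have h2 := (tendsto_add_atTop_iff_nat 1).mpr h1
    have h3 := h2.const_mul (r⁻¹)
    rw [mul_zero] at h3
    apply h3.congr
    intro m
    push_cast
    rw [pow_succ r m]
    have hr' : r ≠ 0 := hr0.ne'
    field_simp
  have h4 := hlim.eventually (gt_mem_nhds (show (0 : ℝ) < 1 by norm_num))
  obtain ⟨m, hm⟩ := h4.exists
  exact absurd (main m) (not_le.mpr hm)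

end Pool.Agent.NumHyp
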