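import Mathlib

set_option autoImplicit false

namespace Pool.Agent.NumHyp

open Filter Topology Finset

variable {X : Type*} [NormedAddCommGroup X] [NormedSpace ℂ X]

/-- A quantitative form of linear independence of four vectors. -/
theorem exists_lower (x₁ y₁ x₂ y₂ : X)
    (hli : ∀ a b c d : ℂ, a • x₁ + b • y₁ + c • x₂ + d • y₂ = 0 → a = 0 ∧ b = 0 ∧ c = 0 ∧ d = 0) :
    ∃ c > 0, ∀ a b a' b' : ℂ,
      c * ‖a‖ ≤ ‖a • x₁ + b • y₁ + a' • x₂ + b' • y₂‖ ∧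
      c * ‖b‖ ≤ ‖a • x₁ + b • y₁ + a' • x₂ + b' • y₂‖ ∧
      c * ‖a'‖ ≤ ‖a • x₁ + b • y₁ + a' • x₂ + b' • y₂‖ ∧
      c * ‖b'‖ ≤ ‖a • x₁ + b • y₁ + a' • x₂ + b' • y₂‖ := by
  let L : (Fin 4 → ℂ) →ₗ[ℂ] X := Fintype.linearCombination ℂ ![x₁, y₁, x₂, y₂]
  have hL : ∀ v : Fin 4 → ℂ, L v = v 0 • x₁ + v 1 • y₁ + v 2 • x₂ + v 3 • y₂ := by
    intro v
    simp [L, Fintype.linearCombination_apply, Fin.sum_univ_four]
  have hker : LinearMap.ker L = ⊥ := by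
    rw [LinearMap.ker_eq_bot']
    intro v hv
    rw [hL] at hv
    obtain ⟨h0, h1, h2, h3⟩ := hli _ _ _ _ hv
    funext i
    fin_cases i
    · exact h0
    · exact h1
    · exact h2
    · exact h3
  obtain ⟨K, hK, hanti⟩ := L.exists_antilipschitzWith hker
  have hb : ∀ v : Fin 4 → ℂ, ‖v‖ ≤ K * ‖L v‖ := by
    intro v
    have := hanti.le_mul_dist v 0
    simpa using this
  have hK' : (0 : ℝ) < K := by exact_mod_cast hK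
  refine ⟨(K : ℝ)⁻¹, by positivity, ?_⟩
  intro a b a' b'
  have h := hb ![a, b, a', b']
  rw [hL] at h
  simp only [Matrix.cons_val_zero, Matrix.cons_val_one, Matrix.cons_val] at h
  have key : ∀ i : Fin 4, (K : ℝ)⁻¹ * ‖(![a, b, a', b'] : Fin 4 → ℂ) i‖ ≤
      ‖a • x₁ + b • y₁ + a' • x₂ + b' • y₂‖ := by
    intro i
    rw [inv_mul_le_iff₀ hK']
    exact (norm_le_pi_norm _ i).trans h
  exact ⟨key 0, key 1, key 2, key 3⟩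

/-- The base vector. -/
def bv (x₁ y₁ x₂ y₂ : X) (g ν₁ ν₂ : ℂ) : X := y₁ + ν₁ • x₁ + g • (y₂ + ν₂ • x₂)

theorem bv_lower {x₁ y₁ x₂ y₂ : X} {c : ℝ}
    (hc : ∀ a b a' b' : ℂ,
      c * ‖a‖ ≤ ‖a • x₁ + b • y₁ + a' • x₂ + b' • y₂‖ ∧
      c * ‖b‖ ≤ ‖a • x₁ + b • y₁ + a' • x₂ + b' • y₂‖ ∧
      c * ‖a'‖ ≤ ‖a • x₁ + b • y₁ + a' • x₂ + b' • y₂‖ ∧
      c * ‖b'‖ ≤ ‖a • x₁ + b • y₁ + a' • x₂ + b' • y₂‖) (g ν₁ ν₂ : ℂ) :
    c * ‖ν₁‖ ≤ ‖bv x₁ y₁ x₂ y₂ g ν₁ ν₂‖ ∧ c ≤ ‖bv x₁ y₁ x₂ y₂ g ν₁ ν₂‖ ∧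
      c * (‖g‖ * ‖ν₂‖) ≤ ‖bv x₁ y₁ x₂ y₂ g ν₁ ν₂‖ ∧ c * ‖g‖ ≤ ‖bv x₁ y₁ x₂ y₂ g ν₁ ν₂‖ := by
  have e : bv x₁ y₁ x₂ y₂ g ν₁ ν₂ = ν₁ • x₁ + (1 : ℂ) • y₁ + (g * ν₂) • x₂ + g • y₂ := by
    unfold bv
    rw [one_smul, smul_add, smul_smul]
    abel
  obtain ⟨h1, h2, h3, h4⟩ := hc ν₁ 1 (g * ν₂) g
  rw [e]
  refine ⟨h1, ?_, ?_, h4⟩
  · simpa using h2
  · rw [norm_mul] at h3; exact h3

/-- existence of an interior minimiser -/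
theorem exists_min (x₁ y₁ x₂ y₂ : X)
    (hli : ∀ a b c d : ℂ, a • x₁ + b • y₁ + c • x₂ + d • y₂ = 0 → a = 0 ∧ b = 0 ∧ c = 0 ∧ d = 0) :
    ∃ δ > 0, ∃ R > 1, ∀ D₁ D₂ : ℂ, ‖D₁‖ < δ → ‖D₂‖ < δ →
      ∃ g ν₁ ν₂ : ℂ, (R⁻¹ < ‖g‖ ∧ ‖g‖ < R ∧ ‖ν₁‖ < R ∧ ‖ν₂‖ < R) ∧
        0 < ‖bv x₁ y₁ x₂ y₂ g ν₁ ν₂‖ ∧
        ∀ g' ν₁' ν₂' : ℂ, R⁻¹ ≤ ‖g'‖ → ‖g'‖ ≤ R → ‖ν₁'‖ ≤ R → ‖ν₂'‖ ≤ R →
          ‖bv x₁ y₁ x₂ y₂ g ν₁ ν₂‖ ^ 2 / ‖g‖ * Real.exp (-2 * (D₁ * ν₁ + D₂ * ν₂).re) ≤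
          ‖bv x₁ y₁ x₂ y₂ g' ν₁' ν₂'‖ ^ 2 / ‖g'‖ * Real.exp (-2 * (D₁ * ν₁' + D₂ * ν₂').re) := by
  obtain ⟨c, hc0, hc⟩ := exists_lower x₁ y₁ x₂ y₂ hli
  set m₀ : ℝ := ‖bv x₁ y₁ x₂ y₂ 1 0 0‖ with hm₀
  have hm₀pos : 0 < m₀ := lt_of_lt_of_le hc0 (bv_lower hc 1 0 0).2.1
  set R : ℝ := Real.exp 1 * m₀ ^ 2 / c ^ 2 + 2 with hR
  have hR1 : 1 < R := by
    have : 0 < Real.exp 1 * m₀ ^ 2 / c ^ 2 := by positivity
    rw [hR]; linarith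
  have hR0 : 0 < R := by linarith
  have hRbig : m₀ ^ 2 < c ^ 2 * R * Real.exp (-1) := by
    have h1 : c ^ 2 * R * Real.exp (-1) = m₀ ^ 2 + 2 * c ^ 2 * Real.exp (-1) := by
      rw [hR]
      have : Real.exp 1 * Real.exp (-1) = 1 := by rw [← Real.exp_add]; simp
      have h2 : c ^ 2 * (Real.exp 1 * m₀ ^ 2 / c ^ 2 + 2) * Real.exp (-1) =
          m₀ ^ 2 * (Real.exp 1 * Real.exp (-1)) + 2 * c ^ 2 * Real.exp (-1) := by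
        field_simp
      rw [h2, this, mul_one]
    rw [h1]
    have : 0 < 2 * c ^ 2 * Real.exp (-1) := by positivity
    linarith
  refine ⟨1 / (4 * R), by positivity, R, hR1, ?_⟩
  intro D₁ D₂ hD₁ hD₂
  -- the compact region
  let S : Set (ℂ × ℂ × ℂ) :=
    {p | R⁻¹ ≤ ‖p.1‖ ∧ ‖p.1‖ ≤ R ∧ ‖p.2.1‖ ≤ R ∧ ‖p.2.2‖ ≤ R}
  let Ψ : ℂ × ℂ × ℂ → ℝ := fun p =>
    ‖bv x₁ y₁ x₂ y₂ p.1 p.2.1 p.2.2‖ ^ 2 / ‖p.1‖ *
      Real.exp (-2 * (D₁ * p.2.1 + D₂ * p.2.2).re)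
  have hScompact : IsCompact S := by
    apply Metric.isCompact_of_isClosed_isBounded
    · have c1 : IsClosed {p : ℂ × ℂ × ℂ | R⁻¹ ≤ ‖p.1‖} :=
        isClosed_le continuous_const (by fun_prop)
      have c2 : IsClosed {p : ℂ × ℂ × ℂ | ‖p.1‖ ≤ R} :=
        isClosed_le (by fun_prop) continuous_const
      have c3 : IsClosed {p : ℂ × ℂ × ℂ | ‖p.2.1‖ ≤ R} :=
        isClosed_le (by fun_prop) continuous_const
      have c4 : IsClosed {p : ℂ × ℂ × ℂ | ‖p.2.2‖ ≤ R} :=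
        isClosed_le (by fun_prop) continuous_const
      exact c1.inter (c2.inter (c3.inter c4))
    · apply (Metric.isBounded_closedBall (x := (0 : ℂ × ℂ × ℂ)) (r := R)).subset
      rintro ⟨p, q, r⟩ ⟨_, h2, h3, h4⟩
      rw [Metric.mem_closedBall, dist_zero_right, Prod.norm_def, Prod.norm_def]
      simp only
      exact max_le h2 (max_le h3 h4)
  have hRinv : R⁻¹ < 1 := inv_lt_one_of_one_lt₀ hR1
  have hSne : S.Nonempty := by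
    refine ⟨((1 : ℂ), (0 : ℂ), (0 : ℂ)), ?_⟩
    refine ⟨?_, ?_, ?_, ?_⟩ <;> simp <;> linarith
  have hΨcont : ContinuousOn Ψ S := by
    apply ContinuousOn.mul
    · apply ContinuousOn.div
      · apply Continuous.continuousOn
        unfold bv
        fun_prop
      · apply Continuous.continuousOn
        fun_prop
      · rintro ⟨p, q, r⟩ ⟨h1, _⟩
        have : 0 < R⁻¹ := by positivity
        simp only at h1 ⊢
        linarith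
    · apply Continuous.continuousOn
      fun_prop
  obtain ⟨⟨g, ν₁, ν₂⟩, hpS, hmin⟩ := hScompact.exists_isMinOn hSne hΨcont
  obtain ⟨hg1, hg2, hn1, hn2⟩ := hpS
  simp only at hg1 hg2 hn1 hn2
  have hg0 : 0 < ‖g‖ := lt_of_lt_of_le (by positivity) hg1
  -- the value at the minimiser is at most the value at `(1,0,0)`
  have hval : Ψ (g, ν₁, ν₂) ≤ m₀ ^ 2 := by
    have h1 : ((1 : ℂ), (0 : ℂ), (0 : ℂ)) ∈ S := by
      refine ⟨?_, ?_, ?_, ?_⟩ <;> simp <;> linarith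
    have := hmin h1
    have h2 : Ψ ((1 : ℂ), (0 : ℂ), (0 : ℂ)) = m₀ ^ 2 := by simp [Ψ, hm₀]
    rw [← h2]; exact this
  have hexp : Real.exp (-1) ≤ Real.exp (-2 * (D₁ * ν₁ + D₂ * ν₂).re) := by
    apply Real.exp_le_exp.mpr
    have h1 : (D₁ * ν₁ + D₂ * ν₂).re ≤ 1 / 2 := by
      calc (D₁ * ν₁ + D₂ * ν₂).re ≤ ‖D₁ * ν₁ + D₂ * ν₂‖ := Complex.re_le_norm _
        _ ≤ ‖D₁‖ * ‖ν₁‖ + ‖D₂‖ * ‖ν₂‖ := by
            refine (norm_add_le _ _).trans ?_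
            rw [norm_mul, norm_mul]
        _ ≤ 1 / (4 * R) * R + 1 / (4 * R) * R := by
            gcongr
        _ = 1 / 2 := by field_simp; norm_num
    linarith
  obtain ⟨l1, l2, l3, l4⟩ := bv_lower hc g ν₁ ν₂
  set N : ℝ := ‖bv x₁ y₁ x₂ y₂ g ν₁ ν₂‖ with hN
  have hNpos : 0 < N := lt_of_lt_of_le hc0 l2
  -- if the point is on the boundary the value is too large
  have hbd : ¬ (c ^ 2 * R * ‖g‖ ≤ N ^ 2) := by
    intro h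
    have h1 : c ^ 2 * R ≤ N ^ 2 / ‖g‖ := by rw [le_div_iff₀ hg0]; exact h
    have h2 : c ^ 2 * R * Real.exp (-1) ≤
        N ^ 2 / ‖g‖ * Real.exp (-2 * (D₁ * ν₁ + D₂ * ν₂).re) := by
      apply mul_le_mul h1 hexp (by positivity) (by positivity)
    have h3 : Ψ (g, ν₁, ν₂) = N ^ 2 / ‖g‖ * Real.exp (-2 * (D₁ * ν₁ + D₂ * ν₂).re) := rfl
    rw [h3] at hval
    linarith
  have i1 : R⁻¹ < ‖g‖ := by
    apply lt_of_le_of_ne hg1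
    intro h
    apply hbd
    rw [← h]
    have : c ^ 2 * R * R⁻¹ = c ^ 2 := by field_simp
    rw [this]
    exact pow_le_pow_left₀ hc0.le l2 2
  have i2 : ‖g‖ < R := by
    apply lt_of_le_of_ne hg2
    intro h
    apply hbd
    rw [← h]
    have := mul_le_mul l4 l4 (by positivity) hNpos.le
    calc c ^ 2 * ‖g‖ * ‖g‖ = c * ‖g‖ * (c * ‖g‖) := by ring
      _ ≤ N * N := this
      _ = N ^ 2 := by ring
  have i3 : ‖ν₁‖ < R := by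
    apply lt_of_le_of_ne hn1
    intro h
    apply hbd
    rw [← h]
    have := mul_le_mul l1 l4 (by positivity) hNpos.le
    calc c ^ 2 * ‖ν₁‖ * ‖g‖ = c * ‖ν₁‖ * (c * ‖g‖) := by ring
      _ ≤ N * N := this
      _ = N ^ 2 := by ring
  have i4 : ‖ν₂‖ < R := by
    apply lt_of_le_of_ne hn2
    intro h
    apply hbd
    rw [← h]
    have := mul_le_mul l3 l2 hc0.le hNpos.le
    calc c ^ 2 * ‖ν₂‖ * ‖g‖ = c * (‖g‖ * ‖ν₂‖) * c := by ring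
      _ ≤ N * N := this
      _ = N ^ 2 := by ring
  refine ⟨g, ν₁, ν₂, ⟨i1, i2, i3, i4⟩, hNpos, ?_⟩
  intro g' ν₁' ν₂' h1 h2 h3 h4
  exact hmin (show (g', ν₁', ν₂') ∈ S from ⟨h1, h2, h3, h4⟩)

/-- Zenger type lemma: first the real part estimate. -/
theorem real_part_bound (x₁ y₁ x₂ y₂ : X) (R : ℝ) (D₁ D₂ g ν₁ ν₂ : ℂ)
    (hR : 1 < R) (hint : R⁻¹ < ‖g‖ ∧ ‖g‖ < R ∧ ‖ν₁‖ < R ∧ ‖ν₂‖ < R)
    (hpos : 0 < ‖bv x₁ y₁ x₂ y₂ g ν₁ ν₂‖)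
    (hmin : ∀ g' ν₁' ν₂' : ℂ, R⁻¹ ≤ ‖g'‖ → ‖g'‖ ≤ R → ‖ν₁'‖ ≤ R → ‖ν₂'‖ ≤ R →
          ‖bv x₁ y₁ x₂ y₂ g ν₁ ν₂‖ ^ 2 / ‖g‖ * Real.exp (-2 * (D₁ * ν₁ + D₂ * ν₂).re) ≤
          ‖bv x₁ y₁ x₂ y₂ g' ν₁' ν₂'‖ ^ 2 / ‖g'‖ * Real.exp (-2 * (D₁ * ν₁' + D₂ * ν₂').re))
    (d₁ d₂ e₁ e₂ : ℂ) :
    (d₁ / 2 + d₂ / 2 + D₁ * e₁ + D₂ * e₂).re * ‖bv x₁ y₁ x₂ y₂ g ν₁ ν₂‖ ≤
      ‖d₁ • (y₁ + ν₁ • x₁) + d₂ • (g • (y₂ + ν₂ • x₂)) + e₁ • x₁ + e₂ • (g • x₂)‖ := by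
  set N : ℝ := ‖bv x₁ y₁ x₂ y₂ g ν₁ ν₂‖ with hN
  set v : X := d₁ • (y₁ + ν₁ • x₁) + d₂ • (g • (y₂ + ν₂ • x₂)) + e₁ • x₁ + e₂ • (g • x₂) with hv
  set s : ℝ := ‖v‖ / N with hs
  have hg0 : 0 < ‖g‖ := lt_trans (by positivity) hint.1
  have hgne : g ≠ 0 := norm_pos_iff.mp hg0
  -- perturbed parameters
  let G : ℝ → ℂ := fun t => g * (1 + t * d₂) / (1 + t * d₁)
  let n₁ : ℝ → ℂ := fun t => ν₁ + t * e₁ / (1 + t * d₁)
  let n₂ : ℝ → ℂ := fun t => ν₂ + t * e₂ / (1 + t * d₂)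
  let κ : ℝ → ℝ := fun t => (D₁ * (e₁ / (1 + t * d₁)) + D₂ * (e₂ / (1 + t * d₂))).re
  have hc1 : ContinuousAt (fun t : ℝ => (1 : ℂ) + t * d₁) 0 := by fun_prop
  have hc2 : ContinuousAt (fun t : ℝ => (1 : ℂ) + t * d₂) 0 := by fun_prop
  have h10 : (1 : ℂ) + ((0 : ℝ) : ℂ) * d₁ ≠ 0 := by simp
  have h20 : (1 : ℂ) + ((0 : ℝ) : ℂ) * d₂ ≠ 0 := by simp
  have hGc : ContinuousAt G 0 := by
    apply ContinuousAt.div _ hc1 h10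
    fun_prop
  have hn1c : ContinuousAt n₁ 0 := by
    apply ContinuousAt.add continuousAt_const
    apply ContinuousAt.div _ hc1 h10
    fun_prop
  have hn2c : ContinuousAt n₂ 0 := by
    apply ContinuousAt.add continuousAt_const
    apply ContinuousAt.div _ hc2 h20
    fun_prop
  have hκc : ContinuousAt κ 0 := by
    apply Complex.continuous_re.continuousAt.comp
    apply ContinuousAt.add
    · apply ContinuousAt.mul continuousAt_const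
      exact ContinuousAt.div continuousAt_const hc1 h10
    · apply ContinuousAt.mul continuousAt_const
      exact ContinuousAt.div continuousAt_const hc2 h20
  have hG0 : G 0 = g := by simp [G]
  have hn10 : n₁ 0 = ν₁ := by simp [n₁]
  have hn20 : n₂ 0 = ν₂ := by simp [n₂]
  have ev1 : ∀ᶠ t in 𝓝 (0 : ℝ), R⁻¹ < ‖G t‖ :=
    (hGc.norm).eventually (lt_mem_nhds (by show R⁻¹ < ‖G 0‖; rw [hG0]; exact hint.1))
  have ev2 : ∀ᶠ t in 𝓝 (0 : ℝ), ‖G t‖ < R :=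
    (hGc.norm).eventually (gt_mem_nhds (by show ‖G 0‖ < R; rw [hG0]; exact hint.2.1))
  have ev3 : ∀ᶠ t in 𝓝 (0 : ℝ), ‖n₁ t‖ < R :=
    (hn1c.norm).eventually (gt_mem_nhds (by show ‖n₁ 0‖ < R; rw [hn10]; exact hint.2.2.1))
  have ev4 : ∀ᶠ t in 𝓝 (0 : ℝ), ‖n₂ t‖ < R :=
    (hn2c.norm).eventually (gt_mem_nhds (by show ‖n₂ 0‖ < R; rw [hn20]; exact hint.2.2.2))
  have ev5 : ∀ᶠ t : ℝ in 𝓝 (0 : ℝ), (1 : ℂ) + (t : ℂ) * d₁ ≠ 0 := hc1.eventually_ne h10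
  have ev6 : ∀ᶠ t : ℝ in 𝓝 (0 : ℝ), (1 : ℂ) + (t : ℂ) * d₂ ≠ 0 := hc2.eventually_ne h20
  have ev7 : ∀ᶠ t in 𝓝 (0 : ℝ), 0 < 1 + t * d₁.re := by
    have : ContinuousAt (fun t : ℝ => 1 + t * d₁.re) 0 := by fun_prop
    exact this.eventually (lt_mem_nhds (by simp))
  have ev8 : ∀ᶠ t in 𝓝 (0 : ℝ), 0 < 1 + t * d₂.re := by
    have : ContinuousAt (fun t : ℝ => 1 + t * d₂.re) 0 := by fun_prop
    exact this.eventually (lt_mem_nhds (by simp))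
  have ev9 : ∀ᶠ t in 𝓝 (0 : ℝ), 0 < 1 + 2 * t * κ t := by
    have : ContinuousAt (fun t : ℝ => 1 + 2 * t * κ t) 0 := by
      apply ContinuousAt.add continuousAt_const
      apply ContinuousAt.mul _ hκc
      fun_prop
    exact this.eventually (lt_mem_nhds (by simp))
  -- the function whose sign we need
  let h : ℝ → ℝ := fun t => 2 * s + t * s ^ 2 -
    ((d₁.re + d₂.re + t * (d₁.re * d₂.re)) * (1 + 2 * t * κ t) + 2 * κ t)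
  have hhc : Tendsto h (𝓝[>] 0) (𝓝 (h 0)) := by
    have : ContinuousAt h 0 := by
      apply ContinuousAt.sub
      · fun_prop
      · apply ContinuousAt.add
        · apply ContinuousAt.mul
          · fun_prop
          · apply ContinuousAt.add continuousAt_const
            apply ContinuousAt.mul _ hκc
            fun_prop
        · apply ContinuousAt.mul continuousAt_const hκc
    exact this.tendsto.mono_left nhdsWithin_le_nhds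
  have hnn : ∀ᶠ t in 𝓝[>] (0 : ℝ), 0 ≤ h t := by
    have ev : ∀ᶠ t in 𝓝[>] (0 : ℝ), 0 < t := eventually_mem_nhdsWithin
    filter_upwards [ev, nhdsWithin_le_nhds ev1, nhdsWithin_le_nhds ev2, nhdsWithin_le_nhds ev3,
      nhdsWithin_le_nhds ev4, nhdsWithin_le_nhds ev5, nhdsWithin_le_nhds ev6,
      nhdsWithin_le_nhds ev7, nhdsWithin_le_nhds ev8, nhdsWithin_le_nhds ev9]
      with t ht e1 e2 e3 e4 e5 e6 e7 e8 e9
    have hm := hmin (G t) (n₁ t) (n₂ t) e1.le e2.le e3.le e4.le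
    -- relation between the vectors
    have hvec : (1 + (t : ℂ) * d₁) • bv x₁ y₁ x₂ y₂ (G t) (n₁ t) (n₂ t) =
        bv x₁ y₁ x₂ y₂ g ν₁ ν₂ + (t : ℂ) • v := by
      have a1 : (1 + (t : ℂ) * d₁) * n₁ t = (1 + t * d₁) * ν₁ + t * e₁ := by
        simp only [n₁]; field_simp
      have a2 : (1 + (t : ℂ) * d₁) * G t = g * (1 + t * d₂) := by
        simp only [G]; field_simp
      have a3 : (1 + (t : ℂ) * d₁) * (G t * n₂ t) = g * ((1 + t * d₂) * ν₂ + t * e₂) := by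
        simp only [G, n₂]; field_simp
      have b1 : (1 + (t : ℂ) * d₁) • bv x₁ y₁ x₂ y₂ (G t) (n₁ t) (n₂ t) =
          (1 + (t : ℂ) * d₁) • y₁ + ((1 + (t : ℂ) * d₁) * n₁ t) • x₁ +
          ((1 + (t : ℂ) * d₁) * G t) • y₂ + ((1 + (t : ℂ) * d₁) * (G t * n₂ t)) • x₂ := by
        unfold bv
        module
      rw [b1, a1, a2, a3, hv]
      unfold bv
      module
    have hnorm : ‖1 + (t : ℂ) * d₁‖ * ‖bv x₁ y₁ x₂ y₂ (G t) (n₁ t) (n₂ t)‖ ≤ N + t * ‖v‖ := by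
      rw [← norm_smul, hvec]
      refine (norm_add_le _ _).trans ?_
      rw [norm_smul, Complex.norm_real, Real.norm_of_nonneg ht.le]
    -- rewrite the minimality inequality
    set Mt : ℝ := ‖bv x₁ y₁ x₂ y₂ (G t) (n₁ t) (n₂ t)‖ with hMt
    set A : ℝ := ‖1 + (t : ℂ) * d₁‖ with hA
    set B : ℝ := ‖1 + (t : ℂ) * d₂‖ with hB
    have hApos : 0 < A := norm_pos_iff.mpr e5
    have hBpos : 0 < B := norm_pos_iff.mpr e6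
    have hGn : ‖G t‖ = ‖g‖ * B / A := by simp only [G]; rw [norm_div, norm_mul]
    have hreκ : (D₁ * n₁ t + D₂ * n₂ t).re = (D₁ * ν₁ + D₂ * ν₂).re + t * κ t := by
      simp only [n₁, n₂, κ]
      have : D₁ * (ν₁ + ↑t * e₁ / (1 + ↑t * d₁)) + D₂ * (ν₂ + ↑t * e₂ / (1 + ↑t * d₂)) =
          (D₁ * ν₁ + D₂ * ν₂) + (t : ℂ) * (D₁ * (e₁ / (1 + ↑t * d₁)) + D₂ * (e₂ / (1 + ↑t * d₂))) := by
        ring
      rw [this, Complex.add_re, Complex.re_ofReal_mul]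
    have hm2 : N ^ 2 * (A * B) * Real.exp (2 * (t * κ t)) ≤ (A * Mt) ^ 2 := by
      rw [hreκ, hGn] at hm
      have hE : Real.exp (-2 * ((D₁ * ν₁ + D₂ * ν₂).re + t * κ t)) =
          Real.exp (-2 * (D₁ * ν₁ + D₂ * ν₂).re) * (Real.exp (2 * (t * κ t)))⁻¹ := by
        rw [← Real.exp_neg, ← Real.exp_add]; congr 1; ring
      rw [hE] at hm
      have hE1 : 0 < Real.exp (-2 * (D₁ * ν₁ + D₂ * ν₂).re) := Real.exp_pos _
      have hE2 : 0 < Real.exp (2 * (t * κ t)) := Real.exp_pos _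
      have h1 : N ^ 2 / ‖g‖ ≤ Mt ^ 2 / (‖g‖ * B / A) * (Real.exp (2 * (t * κ t)))⁻¹ := by
        have : N ^ 2 / ‖g‖ * Real.exp (-2 * (D₁ * ν₁ + D₂ * ν₂).re) ≤
            (Mt ^ 2 / (‖g‖ * B / A) * (Real.exp (2 * (t * κ t)))⁻¹) *
              Real.exp (-2 * (D₁ * ν₁ + D₂ * ν₂).re) := by
          calc _ ≤ _ := hm
            _ = _ := by ring
        exact le_of_mul_le_mul_right this hE1
      have h2 : Mt ^ 2 / (‖g‖ * B / A) * (Real.exp (2 * (t * κ t)))⁻¹ =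
          (Mt ^ 2 * A) / (‖g‖ * B * Real.exp (2 * (t * κ t))) := by
        field_simp
      rw [h2, div_le_div_iff₀ hg0 (by positivity)] at h1
      have h3 : N ^ 2 * (B * Real.exp (2 * (t * κ t))) * ‖g‖ ≤ (Mt ^ 2 * A) * ‖g‖ := by
        calc _ = N ^ 2 * (‖g‖ * B * Real.exp (2 * (t * κ t))) := by ring
          _ ≤ _ := h1
      have h4 := le_of_mul_le_mul_right h3 hg0
      calc N ^ 2 * (A * B) * Real.exp (2 * (t * κ t)) =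
            A * (N ^ 2 * (B * Real.exp (2 * (t * κ t)))) := by ring
        _ ≤ A * (Mt ^ 2 * A) := mul_le_mul_of_nonneg_left h4 hApos.le
        _ = (A * Mt) ^ 2 := by ring
    have hm3 : N ^ 2 * (A * B) * Real.exp (2 * (t * κ t)) ≤ (N + t * ‖v‖) ^ 2 := by
      refine hm2.trans ?_
      exact pow_le_pow_left₀ (by positivity) hnorm 2
    have hA' : 1 + t * d₁.re ≤ A := by
      have := Complex.re_le_norm (1 + (t : ℂ) * d₁)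
      simpa using this
    have hB' : 1 + t * d₂.re ≤ B := by
      have := Complex.re_le_norm (1 + (t : ℂ) * d₂)
      simpa using this
    have hE' : 1 + 2 * t * κ t ≤ Real.exp (2 * (t * κ t)) := by
      have := Real.add_one_le_exp (2 * (t * κ t))
      linarith
    have hAB : (1 + t * d₁.re) * (1 + t * d₂.re) ≤ A * B :=
      mul_le_mul hA' hB' e8.le hApos.le
    have hABE : (1 + t * d₁.re) * (1 + t * d₂.re) * (1 + 2 * t * κ t) ≤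
        A * B * Real.exp (2 * (t * κ t)) :=
      mul_le_mul hAB hE' e9.le (by positivity)
    have hm4 : N ^ 2 * ((1 + t * d₁.re) * (1 + t * d₂.re) * (1 + 2 * t * κ t)) ≤
        (N + t * ‖v‖) ^ 2 := by
      calc _ ≤ N ^ 2 * (A * B * Real.exp (2 * (t * κ t))) :=
            mul_le_mul_of_nonneg_left hABE (by positivity)
        _ = N ^ 2 * (A * B) * Real.exp (2 * (t * κ t)) := by ring
        _ ≤ _ := hm3
    have hsN : (N + t * ‖v‖) ^ 2 = N ^ 2 * (1 + t * s) ^ 2 := by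
      rw [hs]; field_simp
    rw [hsN] at hm4
    have hm5 := le_of_mul_le_mul_left hm4 (by positivity)
    have hm6 : 0 ≤ t * h t := by
      have : t * h t = (1 + t * s) ^ 2 -
          (1 + t * d₁.re) * (1 + t * d₂.re) * (1 + 2 * t * κ t) := by
        simp only [h]; ring
      rw [this]; linarith
    exact nonneg_of_mul_nonneg_right hm6 ht
  have hfin : 0 ≤ h 0 := ge_of_tendsto hhc hnn
  have hh0 : h 0 = 2 * s - 2 * (d₁ / 2 + d₂ / 2 + D₁ * e₁ + D₂ * e₂).re := by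
    simp only [h, κ]
    simp
    ring
  rw [hh0] at hfin
  have h1 : (d₁ / 2 + d₂ / 2 + D₁ * e₁ + D₂ * e₂).re ≤ s := by linarith
  rw [hs, le_div_iff₀ hpos] at h1
  exact h1

/-- Zenger type lemma. -/
theorem norm_bound (x₁ y₁ x₂ y₂ : X)
    (hli : ∀ a b c d : ℂ, a • x₁ + b • y₁ + c • x₂ + d • y₂ = 0 → a = 0 ∧ b = 0 ∧ c = 0 ∧ d = 0) :
    ∃ δ > 0, ∀ D₁ D₂ : ℂ, ‖D₁‖ < δ → ‖D₂‖ < δ →
      ∃ g ν₁ ν₂ : ℂ, g ≠ 0 ∧ 0 < ‖bv x₁ y₁ x₂ y₂ g ν₁ ν₂‖ ∧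
        ∀ d₁ d₂ e₁ e₂ : ℂ,
          ‖d₁ / 2 + d₂ / 2 + D₁ * e₁ + D₂ * e₂‖ * ‖bv x₁ y₁ x₂ y₂ g ν₁ ν₂‖ ≤
          ‖d₁ • (y₁ + ν₁ • x₁) + d₂ • (g • (y₂ + ν₂ • x₂)) + e₁ • x₁ + e₂ • (g • x₂)‖ := by
  obtain ⟨δ, hδ, R, hR, H⟩ := exists_min x₁ y₁ x₂ y₂ hli
  refine ⟨δ, hδ, ?_⟩
  intro D₁ D₂ hD₁ hD₂
  obtain ⟨g, ν₁, ν₂, hint, hpos, hmin⟩ := H D₁ D₂ hD₁ hD₂
  have hg0 : 0 < ‖g‖ := lt_trans (by positivity) hint.1
  refine ⟨g, ν₁, ν₂, norm_pos_iff.mp hg0, hpos, ?_⟩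
  intro d₁ d₂ e₁ e₂
  set ℓ : ℂ := d₁ / 2 + d₂ / 2 + D₁ * e₁ + D₂ * e₂ with hℓ
  by_cases h0 : ℓ = 0
  · rw [h0, norm_zero, zero_mul]; positivity
  · -- rotate
    have hn0 : (‖ℓ‖ : ℂ) ≠ 0 := by
      rw [Ne, Complex.ofReal_eq_zero]; exact norm_ne_zero_iff.mpr h0
    set c : ℂ := (starRingEnd ℂ) ℓ / (‖ℓ‖ : ℂ) with hc
    have hcn : ‖c‖ = 1 := by
      rw [hc, norm_div, RCLike.norm_conj, Complex.norm_real, norm_norm]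
      exact div_self (norm_ne_zero_iff.mpr h0)
    have hcℓ : c * ℓ = (‖ℓ‖ : ℂ) := by
      rw [hc, div_mul_eq_mul_div, Complex.conj_mul']
      field_simp
    have h1 := real_part_bound x₁ y₁ x₂ y₂ R D₁ D₂ g ν₁ ν₂ hR hint hpos hmin
      (c * d₁) (c * d₂) (c * e₁) (c * e₂)
    have h2 : c * d₁ / 2 + c * d₂ / 2 + D₁ * (c * e₁) + D₂ * (c * e₂) = (‖ℓ‖ : ℂ) := by
      rw [← hcℓ, hℓ]; ring
    have h3 : (c * d₁) • (y₁ + ν₁ • x₁) + (c * d₂) • (g • (y₂ + ν₂ • x₂)) + (c * e₁) • x₁ +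
        (c * e₂) • (g • x₂) =
        c • (d₁ • (y₁ + ν₁ • x₁) + d₂ • (g • (y₂ + ν₂ • x₂)) + e₁ • x₁ + e₂ • (g • x₂)) := by
      module
    rw [h2, h3, norm_smul, hcn, one_mul, Complex.ofReal_re] at h1
    exact h1

end Pool.Agent.NumHyp
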