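import Mathlib
import Pool.Agent.MP_51ad50_an.Defs
import Pool.Agent.MP_51ad50_an.Kronecker
import Pool.Agent.MP_51ad50_an.Zenger

set_option autoImplicit false

namespace Pool.Agent.NumHyp

open Filter Topology Finset

/-- the model sequence -/
noncomputable def F (l₁ l₂ : ℂ) (n : ℕ) (e : ℂ) : ℂ :=
  l₁ ^ n * (1 / 2 + n * e) + l₂ ^ n * (1 / 2 + n * (starRingEnd ℂ) e)

theorem F_continuous (l₁ l₂ : ℂ) (n : ℕ) : Continuous (F l₁ l₂ n) := by
  unfold F
  have : Continuous (starRingEnd ℂ : ℂ → ℂ) := Complex.continuous_conj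
  fun_prop

/-- main hitting lemma -/
theorem hit (l₁ l₂ : ℂ) (hl : ‖l₁‖ = ‖l₂‖) (h1 : 1 ≤ ‖l₁‖)
    (hind : Independent (l₁ / ‖l₁‖) (l₂ / ‖l₂‖)) (w e₀ : ℂ) (hw : w ≠ 0) (he₀ : e₀ ≠ 0)
    (ε : ℝ) (hε : 0 < ε) :
    ∃ (n : ℕ) (e : ℂ), ‖e - e₀‖ < ε ∧ ‖F l₁ l₂ n e - w‖ < ε := by
  set ρ : ℝ := ‖l₁‖ with hρ
  have hρ0 : 0 < ρ := by linarith
  have hρC : (ρ : ℂ) ≠ 0 := by exact_mod_cast hρ0.ne'
  set z₁ : ℂ := l₁ / (ρ : ℂ) with hz₁
  set z₂ : ℂ := l₂ / (ρ : ℂ) with hz₂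
  have hl1 : l₁ = ρ * z₁ := by rw [hz₁]; field_simp
  have hl2 : l₂ = ρ * z₂ := by rw [hz₂]; field_simp
  have hn1 : ‖z₁‖ = 1 := by
    rw [hz₁, norm_div, Complex.norm_real, Real.norm_of_nonneg hρ0.le, ← hρ]
    exact div_self hρ0.ne'
  have hn2 : ‖z₂‖ = 1 := by
    rw [hz₂, norm_div, Complex.norm_real, Real.norm_of_nonneg hρ0.le, ← hl]
    exact div_self hρ0.ne'
  have hind' : ∀ m n : ℤ, z₁ ^ m * z₂ ^ n = 1 → m = 0 ∧ n = 0 := by
    intro m n hmn
    apply hind m n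
    rw [← hl]
    exact hmn
  have hwn : (0 : ℝ) < ‖w‖ := norm_pos_iff.mpr hw
  have hen : (0 : ℝ) < ‖e₀‖ := norm_pos_iff.mpr he₀
  have hwC : (‖w‖ : ℂ) ≠ 0 := by exact_mod_cast hwn.ne'
  have heC : (‖e₀‖ : ℂ) ≠ 0 := by exact_mod_cast hen.ne'
  -- targets on the torus
  set a : ℂ := Complex.I * (w / ‖w‖) * (‖e₀‖ / e₀) with ha
  set b : ℂ := -Complex.I * (w / ‖w‖) * (e₀ / ‖e₀‖) with hb
  have han : ‖a‖ = 1 := by
    rw [ha, norm_mul, norm_mul, norm_div, norm_div, Complex.norm_I, Complex.norm_real,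
      Complex.norm_real, norm_norm, norm_norm, div_self hwn.ne', div_self hen.ne']
    norm_num
  have hbn : ‖b‖ = 1 := by
    rw [hb, norm_mul, norm_mul, norm_div, norm_div, norm_neg, Complex.norm_I, Complex.norm_real,
      Complex.norm_real, norm_norm, norm_norm, div_self hwn.ne', div_self hen.ne']
    norm_num
  have hww : w * (starRingEnd ℂ) w = (‖w‖ : ℂ) ^ 2 := Complex.mul_conj' w
  have hee : e₀ * (starRingEnd ℂ) e₀ = (‖e₀‖ : ℂ) ^ 2 := Complex.mul_conj' e₀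
  have hab : (starRingEnd ℂ) w * (a * b) = w := by
    have : a * b = (w / ‖w‖) ^ 2 := by
      rw [ha, hb]
      have hI : Complex.I * Complex.I = -1 := Complex.I_mul_I
      have : Complex.I * (w / ‖w‖) * (‖e₀‖ / e₀) * (-Complex.I * (w / ‖w‖) * (e₀ / ‖e₀‖)) =
          -(Complex.I * Complex.I) * (w / ‖w‖) ^ 2 * ((‖e₀‖ / e₀) * (e₀ / ‖e₀‖)) := by ring
      rw [this, hI]
      have h2 : ((‖e₀‖ : ℂ) / e₀) * (e₀ / ‖e₀‖) = 1 := by field_simp
      rw [h2]; ring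
    rw [this, div_pow, ← hww]
    have hcw : (starRingEnd ℂ) w ≠ 0 := by
      intro h0
      rw [h0, mul_zero] at hww
      exact pow_ne_zero 2 hwC hww.symm
    field_simp
  have hker : a * e₀ + b * (starRingEnd ℂ) e₀ = 0 := by
    rw [ha, hb]
    have h2 : (starRingEnd ℂ) e₀ = (‖e₀‖ : ℂ) ^ 2 / e₀ := by
      rw [eq_div_iff he₀, mul_comm]; exact hee
    rw [h2]
    field_simp
    ring
  -- choose the accuracy
  set η : ℝ := min (ε / (2 * ‖w‖)) (ε / (4 * ‖e₀‖)) with hη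
  have hη0 : 0 < η := lt_min (by positivity) (by positivity)
  have hη1 : η * ‖w‖ ≤ ε / 2 := by
    have : η ≤ ε / (2 * ‖w‖) := min_le_left _ _
    calc η * ‖w‖ ≤ ε / (2 * ‖w‖) * ‖w‖ := mul_le_mul_of_nonneg_right this hwn.le
      _ = ε / 2 := by field_simp
  have hη2 : η * ‖e₀‖ ≤ ε / 4 := by
    have : η ≤ ε / (4 * ‖e₀‖) := min_le_right _ _
    calc η * ‖e₀‖ ≤ ε / (4 * ‖e₀‖) * ‖e₀‖ := mul_le_mul_of_nonneg_right this hen.le
      _ = ε / 4 := by field_simp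
  obtain ⟨N, hN⟩ := exists_nat_gt ((‖w‖ + 1) / ε + 1)
  obtain ⟨n, hnN, hna, hnb⟩ := kronecker z₁ z₂ hn1 hn2 hind' a b han hbn η hη0 N
  have hNpos : (0 : ℝ) < n := by
    have h2 : (N : ℝ) ≤ n := by exact_mod_cast hnN
    have h3 : 0 < (‖w‖ + 1) / ε := by positivity
    linarith
  have hnbig : (‖w‖ + 1) / n < ε := by
    have h2 : (N : ℝ) ≤ n := by exact_mod_cast hnN
    rw [div_lt_iff₀ hNpos]
    have h3 : (‖w‖ + 1) / ε < n := by linarith
    rw [div_lt_iff₀ hε] at h3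
    linarith
  have hnC : (n : ℂ) ≠ 0 := by exact_mod_cast hNpos.ne'
  set p : ℂ := z₁ ^ n with hp
  set q : ℂ := z₂ ^ n with hq
  have hpn : ‖p‖ = 1 := by rw [hp, norm_pow, hn1, one_pow]
  have hqn : ‖q‖ = 1 := by rw [hq, norm_pow, hn2, one_pow]
  have hp0 : p ≠ 0 := by intro h; rw [h] at hpn; simp at hpn
  have hq0 : q ≠ 0 := by intro h; rw [h] at hqn; simp at hqn
  have hpp : p * (starRingEnd ℂ) p = 1 := by rw [Complex.mul_conj', hpn]; norm_num
  have hqq : q * (starRingEnd ℂ) q = 1 := by rw [Complex.mul_conj', hqn]; norm_num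
  have hcp : (starRingEnd ℂ) p = 1 / p := by
    rw [eq_div_iff hp0, mul_comm]; exact hpp
  have hcq : (starRingEnd ℂ) q = 1 / q := by
    rw [eq_div_iff hq0, mul_comm]; exact hqq
  -- the corrected target
  set w' : ℂ := (w + (starRingEnd ℂ) w * (p * q)) / 2 with hw'
  have hw'n : ‖w'‖ ≤ ‖w‖ := by
    rw [hw', norm_div]
    have : ‖w + (starRingEnd ℂ) w * (p * q)‖ ≤ 2 * ‖w‖ := by
      refine (norm_add_le _ _).trans ?_
      rw [norm_mul, norm_mul, RCLike.norm_conj, hpn, hqn]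
      linarith
    rw [Complex.norm_two]
    linarith
  have hpqab : ‖p * q - a * b‖ < 2 * η := by
    have : p * q - a * b = p * (q - b) + (p - a) * b := by ring
    rw [this]
    refine lt_of_le_of_lt (norm_add_le _ _) ?_
    rw [norm_mul, norm_mul, hpn, hbn, one_mul, mul_one]
    linarith
  have hw'w : ‖w' - w‖ < ε := by
    have : w' - w = (starRingEnd ℂ) w * (p * q - a * b) / 2 := by
      rw [hw', mul_sub, hab]; ring
    rw [this, norm_div, norm_mul, RCLike.norm_conj, Complex.norm_two]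
    have h3 : ‖w‖ * ‖p * q - a * b‖ < ‖w‖ * (2 * η) := mul_lt_mul_of_pos_left hpqab hwn
    have h4 : ‖w‖ * (2 * η) / 2 = η * ‖w‖ := by ring
    have h5 : ‖w‖ * ‖p * q - a * b‖ / 2 < ‖w‖ * (2 * η) / 2 := by linarith
    rw [h4] at h5
    linarith
  have hρn : (ρ : ℂ) ^ n ≠ 0 := pow_ne_zero _ hρC
  set z : ℂ := w' / (ρ : ℂ) ^ n with hz
  have hzc : (starRingEnd ℂ) z * (p * q) = z := by
    rw [hz, map_div₀, map_pow, Complex.conj_ofReal]
    have : (starRingEnd ℂ) w' * (p * q) = w' := by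
      rw [hw', map_div₀, map_add, map_mul, map_mul, Complex.conj_conj, hcp, hcq]
      have : (starRingEnd ℂ) (2 : ℂ) = 2 := Complex.conj_ofNat 2
      rw [this]
      field_simp
      ring
    rw [div_mul_eq_mul_div, this]
  have hzn : ‖z‖ ≤ ‖w‖ := by
    rw [hz, norm_div, norm_pow, Complex.norm_real, Real.norm_of_nonneg hρ0.le]
    have : 1 ≤ ρ ^ n := one_le_pow₀ h1
    exact (div_le_self (norm_nonneg _) this).trans hw'n
  clear_value z
  obtain ⟨y, hy⟩ : ∃ y : ℂ, y = 1 / 2 + n * e₀ := ⟨_, rfl⟩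
  obtain ⟨v, hv⟩ : ∃ v : ℂ, v = z / (2 * p) + (y - q / p * (starRingEnd ℂ) y) / 2 := ⟨_, rfl⟩
  have hvF : p * v + q * (starRingEnd ℂ) v = z := by
    have h2 : (starRingEnd ℂ) (2 : ℂ) = 2 := Complex.conj_ofNat 2
    have hcv : (starRingEnd ℂ) v =
        (starRingEnd ℂ) z * p / 2 + ((starRingEnd ℂ) y - p / q * y) / 2 := by
      rw [hv, map_add, map_div₀, map_div₀, map_mul, map_sub, map_mul, map_div₀,
        Complex.conj_conj, h2, hcp, hcq]
      field_simp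
    rw [hcv, hv]
    have e1 : p * (z / (2 * p) + (y - q / p * (starRingEnd ℂ) y) / 2) +
        q * ((starRingEnd ℂ) z * p / 2 + ((starRingEnd ℂ) y - p / q * y) / 2) =
        z / 2 + ((starRingEnd ℂ) z * (p * q)) / 2 := by
      field_simp
      ring
    rw [e1, hzc]; ring
  obtain ⟨e, he⟩ : ∃ e : ℂ, e = (v - 1 / 2) / n := ⟨_, rfl⟩
  have hne : 1 / 2 + (n : ℂ) * e = v := by rw [he]; field_simp; ring
  have hnce : 1 / 2 + (n : ℂ) * (starRingEnd ℂ) e = (starRingEnd ℂ) v := by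
    rw [← hne, map_add, map_mul, map_div₀, map_one, Complex.conj_natCast]
    have : (starRingEnd ℂ) (2 : ℂ) = 2 := Complex.conj_ofNat 2
    rw [this]
  refine ⟨n, e, ?_, ?_⟩
  · -- distance of `e` to `e₀`
    have h2 : e - e₀ = (z / (2 * p) - (y + q / p * (starRingEnd ℂ) y) / 2) / n := by
      have : e - e₀ = (v - y) / n := by rw [he, hy]; field_simp; ring
      rw [this, hv]; congr 1; ring
    have hcy : (starRingEnd ℂ) y = 1 / 2 + n * (starRingEnd ℂ) e₀ := by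
      rw [hy, map_add, map_mul, map_div₀, map_one, Complex.conj_natCast]
      have : (starRingEnd ℂ) (2 : ℂ) = 2 := Complex.conj_ofNat 2
      rw [this]
    have h3 : y + q / p * (starRingEnd ℂ) y = (1 + q / p) / 2 +
        n * (((p - a) * e₀ + (q - b) * (starRingEnd ℂ) e₀) / p) := by
      have h4 : (p - a) * e₀ + (q - b) * (starRingEnd ℂ) e₀ =
          p * e₀ + q * (starRingEnd ℂ) e₀ - (a * e₀ + b * (starRingEnd ℂ) e₀) := by ring
      rw [h4, hker, sub_zero, hcy, hy]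
      field_simp
      ring
    have h5 : ‖y + q / p * (starRingEnd ℂ) y‖ ≤ 1 + n * (2 * η * ‖e₀‖) := by
      rw [h3]
      refine (norm_add_le _ _).trans ?_
      apply add_le_add
      · rw [norm_div, Complex.norm_two]
        have : ‖1 + q / p‖ ≤ 2 := by
          refine (norm_add_le _ _).trans ?_
          rw [norm_div, hpn, hqn]; norm_num
        linarith
      · rw [norm_mul, Complex.norm_natCast, norm_div, hpn, div_one]
        apply mul_le_mul_of_nonneg_left _ hNpos.le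
        refine (norm_add_le _ _).trans ?_
        rw [norm_mul, norm_mul, RCLike.norm_conj]
        have := mul_le_mul_of_nonneg_right hna.le hen.le
        have := mul_le_mul_of_nonneg_right hnb.le hen.le
        linarith
    rw [h2, norm_div, Complex.norm_natCast, div_lt_iff₀ hNpos]
    have h6 : ‖z / (2 * p) - (y + q / p * (starRingEnd ℂ) y) / 2‖ ≤
        ‖w‖ / 2 + (1 + n * (2 * η * ‖e₀‖)) / 2 := by
      refine (norm_sub_le _ _).trans ?_
      apply add_le_add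
      · rw [norm_div, norm_mul, hpn, Complex.norm_two, mul_one]; linarith
      · rw [norm_div, Complex.norm_two]; linarith
    have h7 : (‖w‖ + 1) < ε * n := by rwa [div_lt_iff₀ hNpos] at hnbig
    have h8 := mul_le_mul_of_nonneg_left hη2 hNpos.le
    have h9 : ‖w‖ / 2 + (1 + n * (2 * η * ‖e₀‖)) / 2 = (‖w‖ + 1) / 2 + n * (η * ‖e₀‖) := by ring
    rw [h9] at h6
    nlinarith
  · have hF : F l₁ l₂ n e = w' := by
      unfold F
      rw [hne, hnce, hl1, hl2, mul_pow, mul_pow, mul_assoc, mul_assoc, ← mul_add, ← hp, ← hq, hvF,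
        hz]
      field_simp
    rw [hF]
    exact hw'w

/-- a small parameter with dense values -/
theorem exists_dense (l₁ l₂ : ℂ) (hl : ‖l₁‖ = ‖l₂‖) (h1 : 1 ≤ ‖l₁‖)
    (hind : Independent (l₁ / ‖l₁‖) (l₂ / ‖l₂‖)) (δ : ℝ) (hδ : 0 < δ) :
    ∃ e : ℂ, ‖e‖ < δ ∧ Dense (Set.range fun n : ℕ => F l₁ l₂ n e) := by
  obtain ⟨B, hBc, hBne, hB⟩ := TopologicalSpace.exists_countable_basis ℂ
  let O : Set ℂ → Set ℂ := fun b => ⋃ n : ℕ, (F l₁ l₂ n) ⁻¹' b
  have hOo : ∀ b ∈ B, IsOpen (O b) := by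
    intro b hb
    exact isOpen_iUnion fun n => (hB.isOpen hb).preimage (F_continuous l₁ l₂ n)
  have hOd : ∀ b ∈ B, Dense (O b) := by
    intro b hb
    rw [dense_iff_inter_open]
    intro V hV hVne
    -- nonzero points
    have hbne : b.Nonempty := by
      rw [Set.nonempty_iff_ne_empty]
      rintro rfl
      exact hBne hb
    obtain ⟨w, hwb, hw0⟩ : ∃ w ∈ b, w ≠ 0 := by
      have := (dense_compl_singleton (0 : ℂ)).inter_open_nonempty b (hB.isOpen hb) hbne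
      obtain ⟨w, hw⟩ := this
      exact ⟨w, hw.1, hw.2⟩
    obtain ⟨e₀, heV, he0⟩ : ∃ e₀ ∈ V, e₀ ≠ 0 := by
      have := (dense_compl_singleton (0 : ℂ)).inter_open_nonempty V hV hVne
      obtain ⟨w, hw⟩ := this
      exact ⟨w, hw.1, hw.2⟩
    obtain ⟨ε₁, hε₁, hball₁⟩ := Metric.isOpen_iff.mp (hB.isOpen hb) w hwb
    obtain ⟨ε₂, hε₂, hball₂⟩ := Metric.isOpen_iff.mp hV e₀ heV
    obtain ⟨n, e, he, hFe⟩ := hit l₁ l₂ hl h1 hind w e₀ hw0 he0 (min ε₁ ε₂) (lt_min hε₁ hε₂)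
    refine ⟨e, hball₂ ?_, ?_⟩
    · rw [Metric.mem_ball, dist_eq_norm]
      exact lt_of_lt_of_le he (min_le_right _ _)
    · refine Set.mem_iUnion.mpr ⟨n, hball₁ ?_⟩
      rw [Metric.mem_ball, dist_eq_norm]
      exact lt_of_lt_of_le hFe (min_le_left _ _)
  have hd := dense_biInter_of_isOpen hOo hBc hOd
  obtain ⟨e, he, heO⟩ := hd.inter_open_nonempty (Metric.ball 0 δ) Metric.isOpen_ball
    ⟨0, Metric.mem_ball_self hδ⟩
  refine ⟨e, by simpa using he, ?_⟩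
  rw [hB.dense_iff]
  intro b hb _
  have h2 : e ∈ O b := by
    have := Set.mem_iInter₂.mp heO b hb
    exact this
  obtain ⟨n, hn⟩ := Set.mem_iUnion.mp h2
  exact ⟨F l₁ l₂ n e, hn, n, rfl⟩

section operator

variable {Y : Type*} [NormedAddCommGroup Y] [NormedSpace ℂ Y]

theorem pow_eigen (S : Y →L[ℂ] Y) (l : ℂ) (x : Y) (hx : S x = l • x) (n : ℕ) :
    (S ^ n) x = l ^ n • x := by
  induction n with
  | zero => simp
  | succ n ih =>
    rw [pow_succ', mul_apply_eq_comp, ih, map_smul, hx, smul_smul, pow_succ]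

theorem pow_gen (S : Y →L[ℂ] Y) (l : ℂ) (x y : Y) (hx : S x = l • x) (hy : S y = l • y + x)
    (n : ℕ) : (S ^ n) y = l ^ n • y + (n * l ^ (n - 1)) • x := by
  induction n with
  | zero => simp
  | succ n ih =>
    rw [pow_succ', mul_apply_eq_comp, ih, map_add, map_smul, map_smul, hx, hy,
      Nat.add_sub_cancel]
    cases n with
    | zero => simp
    | succ n =>
      rw [Nat.add_sub_cancel]
      push_cast
      rw [pow_succ l (n + 1), pow_succ l n]
      module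

/-- four independent vectors from two Jordan blocks -/
theorem indep_of_jordan (S : Y →L[ℂ] Y) (l₁ l₂ : ℂ) (hl : l₁ ≠ l₂) (x₁ y₁ x₂ y₂ : Y)
    (hx₁ : S x₁ = l₁ • x₁) (hy₁ : S y₁ = l₁ • y₁ + x₁) (hx₁0 : x₁ ≠ 0)
    (hx₂ : S x₂ = l₂ • x₂) (hy₂ : S y₂ = l₂ • y₂ + x₂) (hx₂0 : x₂ ≠ 0) :
    ∀ a b c d : ℂ, a • x₁ + b • y₁ + c • x₂ + d • y₂ = 0 → a = 0 ∧ b = 0 ∧ c = 0 ∧ d = 0 := by
  -- one block at a time
  have key : ∀ (l l' : ℂ) (x y x' y' : Y), l ≠ l' → S x = l • x → S y = l • y + x → x ≠ 0 →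
      S x' = l' • x' → S y' = l' • y' + x' →
      ∀ a b c d : ℂ, a • x + b • y + c • x' + d • y' = 0 → a = 0 ∧ b = 0 := by
    intro l l' x y x' y' hne hx hy hx0 hx' hy' a b c d h
    have hμ : l - l' ≠ 0 := sub_ne_zero.mpr hne
    -- apply `S - l'` twice
    have h1 : (l - l') • (a • x + b • y) + b • x + d • x' = 0 := by
      have e1 : S (a • x + b • y + c • x' + d • y') - l' • (a • x + b • y + c • x' + d • y') = 0 := by
        rw [h]; simp
      rw [map_add, map_add, map_add, map_smul, map_smul, map_smul, map_smul, hx, hy, hx', hy'] at e1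
      rw [← e1]
      module
    have h2 : (l - l') ^ 2 • (a • x + b • y) + (2 * (l - l') * b) • x = 0 := by
      have e1 : S ((l - l') • (a • x + b • y) + b • x + d • x') -
          l' • ((l - l') • (a • x + b • y) + b • x + d • x') = 0 := by
        rw [h1]; simp
      rw [map_add, map_add, map_smul, map_add, map_smul, map_smul, map_smul, map_smul, hx, hy,
        hx'] at e1
      rw [← e1]
      module
    have h3 : ((l - l') ^ 2 * b) • x = 0 := by
      have e1 : S ((l - l') ^ 2 • (a • x + b • y) + (2 * (l - l') * b) • x) -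
          l • ((l - l') ^ 2 • (a • x + b • y) + (2 * (l - l') * b) • x) = 0 := by
        rw [h2]; simp
      rw [map_add, map_smul, map_add, map_smul, map_smul, map_smul, hx, hy] at e1
      rw [← e1]
      module
    have hb : b = 0 := by
      rcases smul_eq_zero.mp h3 with h4 | h4
      · rcases mul_eq_zero.mp h4 with h5 | h5
        · exact absurd h5 (pow_ne_zero 2 hμ)
        · exact h5
      · exact absurd h4 hx0
    subst hb
    have h4 : ((l - l') ^ 2 * a) • x = 0 := by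
      rw [← h2]; module
    have ha : a = 0 := by
      rcases smul_eq_zero.mp h4 with h5 | h5
      · rcases mul_eq_zero.mp h5 with h6 | h6
        · exact absurd h6 (pow_ne_zero 2 hμ)
        · exact h6
      · exact absurd h5 hx0
    exact ⟨ha, rfl⟩
  intro a b c d h
  obtain ⟨ha, hb⟩ := key l₁ l₂ x₁ y₁ x₂ y₂ hl hx₁ hy₁ hx₁0 hx₂ hy₂ a b c d h
  have h' : c • x₂ + d • y₂ + a • x₁ + b • y₁ = 0 := by rw [← h]; module
  obtain ⟨hc, hd⟩ := key l₂ l₁ x₂ y₂ x₁ y₁ hl.symm hx₂ hy₂ hx₂0 hx₁ hy₁ c d a b h'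
  exact ⟨ha, hb, hc, hd⟩

/-- Main theorem in terms of Jordan chains. -/
theorem numHyp_of_jordan (S : Y →L[ℂ] Y) (l₁ l₂ : ℂ) (x₁ y₁ x₂ y₂ : Y)
    (hx₁ : S x₁ = l₁ • x₁) (hy₁ : S y₁ = l₁ • y₁ + x₁) (hx₁0 : x₁ ≠ 0)
    (hx₂ : S x₂ = l₂ • x₂) (hy₂ : S y₂ = l₂ • y₂ + x₂) (hx₂0 : x₂ ≠ 0)
    (hl : ‖l₁‖ = ‖l₂‖) (h1 : 1 ≤ ‖l₁‖)
    (hind : Independent (l₁ / ‖l₁‖) (l₂ / ‖l₂‖)) : NumericallyHypercyclic S := by
  have hne : l₁ ≠ l₂ := by
    rintro rfl
    have h2 := hind 1 (-1) (by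
      have h3 : l₁ / (‖l₁‖ : ℂ) ≠ 0 := by
        have h4 : (‖l₁‖ : ℂ) ≠ 0 := by
          have : ‖l₁‖ ≠ 0 := by linarith
          exact_mod_cast this
        have h5 : l₁ ≠ 0 := by
          intro h; rw [h, norm_zero] at h1; linarith
        exact div_ne_zero h5 h4
      rw [zpow_one, zpow_neg, zpow_one]
      exact mul_inv_cancel₀ h3)
    omega
  have hli := indep_of_jordan S l₁ l₂ hne x₁ y₁ x₂ y₂ hx₁ hy₁ hx₁0 hx₂ hy₂ hx₂0
  obtain ⟨δ, hδ, H⟩ := norm_bound x₁ y₁ x₂ y₂ hli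
  have hρ0 : 0 < ‖l₁‖ := by linarith
  obtain ⟨e, he, hdense⟩ := exists_dense l₁ l₂ hl h1 hind (δ / ‖l₁‖) (by positivity)
  have heδ : ‖l₁‖ * ‖e‖ < δ := by rwa [lt_div_iff₀ hρ0, mul_comm] at he
  obtain ⟨g, ν₁, ν₂, hg, hNpos, hbound⟩ := H (l₁ * e) (l₂ * (starRingEnd ℂ) e)
    (by rw [norm_mul]; exact heδ) (by rw [norm_mul, RCLike.norm_conj, ← hl]; exact heδ)
  set xs : Y := bv x₁ y₁ x₂ y₂ g ν₁ ν₂ with hxs
  set N : ℝ := ‖xs‖ with hN
  -- the coordinate map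
  let u : Fin 4 → Y := ![y₁ + ν₁ • x₁, g • (y₂ + ν₂ • x₂), x₁, g • x₂]
  let J : (Fin 4 → ℂ) →ₗ[ℂ] Y := Fintype.linearCombination ℂ u
  have hJ : ∀ v : Fin 4 → ℂ, J v = v 0 • (y₁ + ν₁ • x₁) + v 1 • (g • (y₂ + ν₂ • x₂)) +
      v 2 • x₁ + v 3 • (g • x₂) := by
    intro v
    simp [J, u, Fintype.linearCombination_apply, Fin.sum_univ_four]
  have hJker : LinearMap.ker J = ⊥ := by
    rw [LinearMap.ker_eq_bot']
    intro v hv
    rw [hJ] at hv
    have h2 : (v 0 * ν₁ + v 2) • x₁ + v 0 • y₁ + (v 1 * g * ν₂ + v 3 * g) • x₂ + (v 1 * g) • y₂ = 0 := by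
      rw [← hv]; module
    obtain ⟨k1, k2, k3, k4⟩ := hli _ _ _ _ h2
    have v1 : v 1 = 0 := by
      rcases mul_eq_zero.mp k4 with h | h
      · exact h
      · exact absurd h hg
    have v2 : v 2 = 0 := by rw [k2] at k1; simpa using k1
    have v3 : v 3 = 0 := by
      rw [v1] at k3
      have : v 3 * g = 0 := by simpa using k3
      rcases mul_eq_zero.mp this with h | h
      · exact h
      · exact absurd h hg
    funext i
    fin_cases i
    · exact k2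
    · exact v1
    · exact v2
    · exact v3
  have hJinj : Function.Injective J := LinearMap.ker_eq_bot.mp hJker
  -- the functional in coordinates
  let ℓ : (Fin 4 → ℂ) →ₗ[ℂ] ℂ :=
    Fintype.linearCombination ℂ ![(1 / 2 : ℂ), 1 / 2, l₁ * e, l₂ * (starRingEnd ℂ) e]
  have hℓ : ∀ v : Fin 4 → ℂ, ℓ v = v 0 / 2 + v 1 / 2 + (l₁ * e) * v 2 +
      (l₂ * (starRingEnd ℂ) e) * v 3 := by
    intro v
    simp [ℓ, Fintype.linearCombination_apply, Fin.sum_univ_four]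
    ring
  let Je := LinearEquiv.ofInjective J hJinj
  let φ : (LinearMap.range J) →ₗ[ℂ] ℂ := ℓ ∘ₗ (Je.symm : (LinearMap.range J) →ₗ[ℂ] (Fin 4 → ℂ))
  have hφJ : ∀ v : Fin 4 → ℂ, φ (Je v) = ℓ v := by
    intro v
    simp [φ]
  have hφb : ∀ y : LinearMap.range J, ‖φ y‖ ≤ (1 / N) * ‖y‖ := by
    intro y
    obtain ⟨v, rfl⟩ := Je.surjective y
    rw [hφJ, hℓ]
    have h2 := hbound (v 0) (v 1) (v 2) (v 3)
    have h3 : ‖Je v‖ = ‖J v‖ := rfl
    rw [h3, hJ]
    rw [one_div, inv_mul_eq_div, le_div_iff₀ hNpos]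
    exact h2
  let φc : StrongDual ℂ (LinearMap.range J) := φ.mkContinuous (1 / N) hφb
  obtain ⟨f, hf, hfn⟩ := exists_extension_norm_eq (LinearMap.range J) φc
  have hfn' : ‖f‖ ≤ 1 / N := by
    rw [hfn]
    exact LinearMap.mkContinuous_norm_le φ (by positivity) hφb
  have hfJ : ∀ v : Fin 4 → ℂ, f (J v) = ℓ v := by
    intro v
    have := hf (Je v)
    rw [← hφJ v]
    exact this
  have hNC : (N : ℂ) ≠ 0 := by exact_mod_cast hNpos.ne'
  have hxsJ : xs = J ![1, 1, 0, 0] := by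
    rw [hJ, hxs]; unfold bv; simp
  have hfx : f xs = 1 := by
    rw [hxsJ, hfJ, hℓ]; simp; norm_num
  -- the pair
  refine ⟨(N : ℂ)⁻¹ • xs, (N : ℂ) • f, ?_, ?_, ?_, ?_⟩
  · rw [norm_smul, norm_inv, Complex.norm_real, Real.norm_of_nonneg hNpos.le]
    exact inv_mul_cancel₀ hNpos.ne'
  · apply le_antisymm
    · rw [norm_smul, Complex.norm_real, Real.norm_of_nonneg hNpos.le]
      calc N * ‖f‖ ≤ N * (1 / N) := mul_le_mul_of_nonneg_left hfn' hNpos.le
        _ = 1 := by field_simp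
    · have h2 : ((N : ℂ) • f) ((N : ℂ)⁻¹ • xs) = 1 := by
        rw [smul_apply, map_smul, hfx, smul_eq_mul, smul_eq_mul, mul_one]
        exact mul_inv_cancel₀ hNC
      have h3 : ‖((N : ℂ) • f) ((N : ℂ)⁻¹ • xs)‖ ≤ ‖(N : ℂ) • f‖ * ‖(N : ℂ)⁻¹ • xs‖ :=
        ContinuousLinearMap.le_opNorm _ _
      rw [h2, norm_one] at h3
      have h4 : ‖(N : ℂ)⁻¹ • xs‖ = 1 := by
        rw [norm_smul, norm_inv, Complex.norm_real, Real.norm_of_nonneg hNpos.le]
        exact inv_mul_cancel₀ hNpos.ne'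
      rw [h4, mul_one] at h3
      exact h3
  · rw [smul_apply, map_smul, hfx, smul_eq_mul, smul_eq_mul, mul_one]
    exact mul_inv_cancel₀ hNC
  · have hseq : (fun n : ℕ => ((N : ℂ) • f) ((S ^ n) ((N : ℂ)⁻¹ • xs))) =
        fun n : ℕ => F l₁ l₂ n e := by
      funext n
      have h2 : (S ^ n) xs = J ![l₁ ^ n, l₂ ^ n, n * l₁ ^ (n - 1), n * l₂ ^ (n - 1)] := by
        rw [hJ, hxs]
        unfold bv
        rw [map_add, map_add, map_smul, map_smul, map_add, map_smul,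
          pow_eigen S l₁ x₁ hx₁, pow_eigen S l₂ x₂ hx₂, pow_gen S l₁ x₁ y₁ hx₁ hy₁,
          pow_gen S l₂ x₂ y₂ hx₂ hy₂]
        simp only [Matrix.cons_val_zero, Matrix.cons_val_one, Matrix.cons_val]
        module
      rw [map_smul, smul_apply, map_smul, smul_eq_mul, smul_eq_mul,
        ← mul_assoc, mul_inv_cancel₀ hNC, one_mul, h2, hfJ, hℓ]
      simp only [Matrix.cons_val_zero, Matrix.cons_val_one, Matrix.cons_val]
      unfold F
      cases n with
      | zero => simp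
      | succ n =>
        rw [Nat.add_sub_cancel]
        push_cast
        ring
    rw [hseq]
    exact hdense

end operator

/-- from the kernel condition to a Jordan chain -/
theorem exists_chain {X : Type*} [NormedAddCommGroup X] [NormedSpace ℂ X] (T : X →L[ℂ] X) (l : ℂ)
    (h : ((T - l • ContinuousLinearMap.id ℂ X) ^ 2).ker ≠ (T - l • ContinuousLinearMap.id ℂ X).ker) :
    ∃ x y : X, T x = l • x ∧ T y = l • y + x ∧ x ≠ 0 := by
  by_contra hcon
  push Not at hcon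
  apply h
  apply le_antisymm
  · intro y hy
    rw [LinearMap.mem_ker] at hy ⊢
    set A : X →L[ℂ] X := T - l • ContinuousLinearMap.id ℂ X with hA
    have hA' : ∀ z, A z = T z - l • z := by intro z; simp [hA]
    have hy2 : A (A y) = 0 := by
      have : (A ^ 2) y = 0 := hy
      rwa [pow_two, mul_apply_eq_comp] at this
    have h1 : T (A y) = l • (A y) := by
      rw [hA' (A y)] at hy2
      exact sub_eq_zero.mp hy2
    have h2 : T y = l • y + A y := by rw [hA' y]; abel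
    have h3 := hcon (A y) y h1 h2
    exact h3
  · intro y hy
    rw [LinearMap.mem_ker] at hy ⊢
    have hy' : (T - l • ContinuousLinearMap.id ℂ X) y = 0 := hy
    change ((T - l • ContinuousLinearMap.id ℂ X) ^ 2) y = 0
    rw [pow_two, mul_apply_eq_comp, hy', map_zero]

theorem strongly.{u} (X : Type u) [NormedAddCommGroup X] [NormedSpace ℂ X] [CompleteSpace X]
    (T : X →L[ℂ] X) (l₁ l₂ : ℂ)
    (h₁ : ((T - l₁ • ContinuousLinearMap.id ℂ X) ^ 2).ker ≠
      (T - l₁ • ContinuousLinearMap.id ℂ X).ker)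
    (h₂ : ((T - l₂ • ContinuousLinearMap.id ℂ X) ^ 2).ker ≠
      (T - l₂ • ContinuousLinearMap.id ℂ X).ker)
    (hl : ‖l₁‖ = ‖l₂‖) (hge : 1 ≤ ‖l₁‖)
    (hind : Independent (l₁ / ‖l₁‖) (l₂ / ‖l₂‖)) : StronglyNumericallyHypercyclic T := by
  intro Y _ _ _ S hTS
  obtain ⟨J, hJ⟩ := hTS
  have hSJ : ∀ x, S (J x) = J (T x) := by
    intro x
    rw [← hJ x, ContinuousLinearEquiv.apply_symm_apply]
  obtain ⟨x₁, y₁, hx₁, hy₁, hx₁0⟩ := exists_chain T l₁ h₁
  obtain ⟨x₂, y₂, hx₂, hy₂, hx₂0⟩ := exists_chain T l₂ h₂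
  apply numHyp_of_jordan S l₁ l₂ (J x₁) (J y₁) (J x₂) (J y₂) _ _ _ _ _ _ hl hge hind
  · rw [hSJ, hx₁, map_smul]
  · rw [hSJ, hy₁, map_add, map_smul]
  · intro h; exact hx₁0 (by simpa using h)
  · rw [hSJ, hx₂, map_smul]
  · rw [hSJ, hy₂, map_add, map_smul]
  · intro h; exact hx₂0 (by simpa using h)

end Pool.Agent.NumHyp
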